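import Pool.Agent.Lib.MP_e7c912_an.H51Final

namespace Pool.Agent.Results.MP_e7c912_an.Semicontinuity

open Bundle Pool.Agent.Lib.MP_e7c912_an.LY
open scoped ContDiff

theorem result {E : Type} [NormedAddCommGroup E] [NormedSpace ℝ E]
    (hE : Module.finrank ℝ E = 2) {M : Type} [EMetricSpace M] [ChartedSpace E M]
    [IsManifold (modelWithCornersSelf ℝ E) ∞ M] [CompactSpace M]
    [RiemannianBundle fun x : M => TangentSpace (modelWithCornersSelf ℝ E) x]
    [IsContMDiffRiemannianBundle (modelWithCornersSelf ℝ E) ∞ E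
      fun x : M => TangentSpace (modelWithCornersSelf ℝ E) x]
    [IsRiemannianManifold (modelWithCornersSelf ℝ E) M]
    [MeasurableSpace M] [BorelSpace M] (f : Diffeo E M) (b : ℝ) (hb : 0 < b) :
    ∃ U : Set (Diffeo E M), IsSmoothNhd f U ∧
      ∀ g ∈ U, NSRB g b ≤ NbarSRB f b ∧ NbarSRB f b < ⊤ :=
  Pool.Agent.Lib.MP_e7c912_an.final_ly hE f b hb

end Pool.Agent.Results.MP_e7c912_an.Semicontinuity
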